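import Mathlib

/-!
# Two multiplicative relations between generic linear forms on a curve

`y` is the generic point of a curve on a surface over `k₀`, in affine coordinates, `M` is a field which contains the
coefficients of the generic linear forms `l i`. If there are two independent multiplicative relations between the `l i`
on the curve, then the curve is a line.
-/

set_option autoImplicit false

namespace Pool.Agent.Helper21.TS

open Module

section

variable {k₀ E V : Type*} [Field k₀] [CharZero k₀] [Field E] [Algebra k₀ E] [AddCommGroup V] [Module k₀ V] [Module E V]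

/-- a derivation which is zero on `S` is zero on the elements which are algebraic over the field generated by `S` -/
theorem der_zero_of_algebraic (D : Derivation k₀ E V) (S : Set E) (hS : ∀ s ∈ S, D s = 0) (x : E)
    (hx : IsAlgebraic (IntermediateField.adjoin k₀ S) x) : D x = 0 := by
  have h1 : ∀ z ∈ IntermediateField.adjoin k₀ S, D z = 0 := by
    intro z hz
    induction hz using IntermediateField.adjoin_induction with
    | mem s hs => exact hS s hs
    | algebraMap c => exact D.map_algebraMap c
    | add a b _ _ ha hb => rw [map_add, ha, hb, add_zero]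
    | inv a _ ha =>
      by_cases h0 : a = 0
      · rw [h0, inv_zero, map_zero]
      · rw [D.leibniz_inv, ha, smul_zero]
    | mul a b _ _ ha hb => rw [D.leibniz, ha, hb, smul_zero, smul_zero, add_zero]
  obtain ⟨L, hL⟩ : ∃ L, L = IntermediateField.adjoin k₀ S := ⟨_, rfl⟩
  rw [← hL] at hx h1
  have hint : IsIntegral L x := hx.isIntegral
  have hcoef : ∀ p : Polynomial L, D (Polynomial.aeval x p) = Polynomial.aeval x p.derivative • D x := by
    intro p
    induction p using Polynomial.induction_on' with
    | add p q hp hq =>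
      rw [map_add, map_add, hp, hq, Polynomial.derivative_add, map_add, add_smul]
    | monomial n a =>
      rw [Polynomial.aeval_monomial, D.leibniz, h1 (algebraMap L E a) a.2, smul_zero, add_zero, D.leibniz_pow,
        Polynomial.derivative_monomial, Polynomial.aeval_monomial, map_mul, map_natCast, mul_smul, mul_smul,
        ← Nat.cast_smul_eq_nsmul E]
  have h2 := hcoef (minpoly L x)
  rw [minpoly.aeval, map_zero] at h2
  have hsep : (minpoly L x).Separable := by
    have : CharZero L := charZero_of_injective_algebraMap (algebraMap k₀ L).injective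
    exact (minpoly.irreducible hint).separable
  have h3 : Polynomial.aeval x (minpoly L x).derivative ≠ 0 :=
    hsep.aeval_derivative_ne_zero (minpoly.aeval L x)
  exact (smul_eq_zero.1 h2.symm).resolve_left h3

end

section

variable {k₀ F : Type*} [Field k₀] [CharZero k₀] [Field F] [Algebra k₀ F]

/-- the derivations on a field of transcendence degree two -/
theorem three_der {N : ℕ} (y : Fin (N + 1) → F)
    (htr : Algebra.trdeg k₀ (IntermediateField.adjoin k₀ (Set.range y)) ≤ 2) (D : Fin 3 → Derivation k₀ F F) :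
    ∃ u : Fin 3 → F, u ≠ 0 ∧ ∀ c, ∑ j, u j * D j (y c) = 0 := by
  obtain ⟨E, hE⟩ : ∃ E, E = IntermediateField.adjoin k₀ (Set.range y) := ⟨_, rfl⟩
  rw [← hE] at htr
  obtain ⟨ι, t, ht⟩ := exists_isTranscendenceBasis' (R := k₀) E
  have hcard := ht.cardinalMk_eq_trdeg
  have hle : Cardinal.mk ι ≤ 2 := hcard.le.trans htr
  have hfin : Finite ι := by
    rw [← Cardinal.lt_aleph0_iff_finite]
    exact lt_of_le_of_lt hle (by exact_mod_cast Cardinal.natCast_lt_aleph0 (n := 2))
  have := Fintype.ofFinite ι
  have hcard2 : Fintype.card ι ≤ 2 := by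
    rw [Cardinal.mk_fintype] at hle
    exact_mod_cast hle
  let f : (Fin 3 → F) →ₗ[F] (ι → F) := LinearMap.pi fun i => ∑ j, (D j (t i : F)) • LinearMap.proj j
  have hf : ∀ u i, f u i = ∑ j, u j * D j (t i : F) := by
    intro u i
    simp only [f, LinearMap.pi_apply, LinearMap.sum_apply, LinearMap.smul_apply, LinearMap.proj_apply, smul_eq_mul, mul_comm]
  have hker : LinearMap.ker f ≠ ⊥ := LinearMap.ker_ne_bot_of_finrank_lt (by
    rw [Module.finrank_fintype_fun_eq_card, Module.finrank_fintype_fun_eq_card, Fintype.card_fin]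
    omega)
  obtain ⟨u, hu, hu0⟩ := (Submodule.ne_bot_iff _).1 hker
  refine ⟨u, hu0, fun c => ?_⟩
  have hyc : y c ∈ E := by
    rw [hE]
    exact IntermediateField.subset_adjoin _ _ (Set.mem_range_self c)
  let D' : Derivation k₀ E F := u 0 • ((D 0).compAlgebraMap E) + u 1 • ((D 1).compAlgebraMap E) +
    u 2 • ((D 2).compAlgebraMap E)
  have hD' : ∀ x : E, D' x = ∑ j, u j * D j (x : F) := by
    intro x
    rw [Fin.sum_univ_three]
    rfl
  have h2 := der_zero_of_algebraic D' (Set.range t) (by
    rintro _ ⟨i, rfl⟩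
    rw [hD', ← hf, LinearMap.mem_ker.1 hu]
    rfl) ⟨y c, hyc⟩ (ht.isAlgebraic_field.isAlgebraic _)
  rw [hD'] at h2
  exact h2

omit [CharZero k₀] in
/-- logarithmic derivative of a product of powers -/
theorem log_der {ι : Type*} (s : Finset ι) (D : Derivation k₀ F F) (x : ι → F) (hx : ∀ i, x i ≠ 0) (a : ι → ℤ) :
    D (∏ i ∈ s, x i ^ a i) = (∏ i ∈ s, x i ^ a i) * ∑ i ∈ s, a i * (D (x i) / x i) := by
  classical
  induction s using Finset.induction_on with
  | empty => rw [Finset.prod_empty, Finset.sum_empty, mul_zero, D.map_one_eq_zero]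
  | insert i s hi ih =>
    rw [Finset.prod_insert hi, Finset.sum_insert hi, D.leibniz, ih, smul_eq_mul, smul_eq_mul, D.leibniz_zpow, smul_eq_mul,
      zsmul_eq_mul, zpow_sub_one₀ (hx i)]
    ring

theorem indep_pair {q : ℕ} {a b : Fin q → ℤ} (hab : LinearIndependent ℤ ![a, b]) : ∃ i j, a i * b j ≠ a j * b i := by
  by_contra hcon
  push Not at hcon
  rw [LinearIndependent.pair_iff] at hab
  have ha : a ≠ 0 := by
    rintro rfl
    have := hab 1 0 (by simp)
    exact one_ne_zero this.1
  obtain ⟨j, hj⟩ := Function.ne_iff.1 ha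
  have h1 := hab (b j) (-a j) (by
    funext i
    simp only [Pi.add_apply, Pi.smul_apply, smul_eq_mul, Pi.zero_apply]
    have := hcon i j
    linarith)
  exact hj (neg_eq_zero.1 h1.2)

variable {M : Type*} [Field M] [Algebra k₀ M] [Algebra M F] [IsScalarTower k₀ M F]

/-- extensions of derivations -/
def Ext1 (k₀ M F : Type*) [Field k₀] [Field M] [Field F] [Algebra k₀ M] [Algebra k₀ F] [Algebra M F] : Prop :=
  ∀ D₀ : Derivation k₀ M M, ∃ D : Derivation k₀ F F, ∀ m, D (algebraMap M F m) = algebraMap M F (D₀ m)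

/-- **Two multiplicative relations between generic linear forms on a curve.** -/
theorem line_core (hext : Ext1 k₀ M F) {N q : ℕ} (l : Fin q → Fin (N + 1) → M)
    (hl : ∀ p : Fin q × Fin (N + 1), ∃ D : Derivation k₀ M M, ∀ p' : Fin q × Fin (N + 1), D (l p'.1 p'.2) = if p' = p then 1 else 0)
    (y : Fin (N + 1) → F) (h0 : y 0 = 1)
    (htr : Algebra.trdeg k₀ (IntermediateField.adjoin k₀ (Set.range y)) ≤ 2)
    (η : Derivation M F F) (hη : ∃ c, η (y c) ≠ 0) (hly : ∀ i, ∑ c, algebraMap M F (l i c) * y c ≠ 0)
    (a b : Fin q → ℤ) (hab : LinearIndependent ℤ ![a, b]) (τ σ : M)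
    (hA : ∏ i, (∑ c, algebraMap M F (l i c) * y c) ^ a i = algebraMap M F τ)
    (hB : ∏ i, (∑ c, algebraMap M F (l i c) * y c) ^ b i = algebraMap M F σ) :
    finrank M (Submodule.span M (Set.range y)) ≤ 2 := by
  classical
  obtain ⟨Λ, hΛ⟩ : ∃ Λ : Fin q → F, Λ = fun i => ∑ c, algebraMap M F (l i c) * y c := ⟨_, rfl⟩
  have hΛ0 : ∀ i, Λ i ≠ 0 := by
    intro i
    rw [hΛ]
    exact hly i
  have hΛd : ∀ (D : Derivation k₀ F F) i, D (Λ i) = ∑ c, D (algebraMap M F (l i c)) * y c + ∑ c, algebraMap M F (l i c) * D (y c) := by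
    intro D i
    rw [hΛ]
    simp only [map_sum, D.leibniz, smul_eq_mul]
    rw [← Finset.sum_add_distrib]
    refine Finset.sum_congr rfl fun c _ => ?_
    ring
  -- the functional
  let θ : (Fin q → ℤ) → (Fin (N + 1) → F) → F := fun a v => ∑ i, a i * ((∑ c, algebraMap M F (l i c) * v c) / Λ i)
  have hrel : ∀ (a : Fin q → ℤ) (τ : M), ∏ i, (Λ i) ^ a i = algebraMap M F τ → ∀ D : Derivation k₀ F F,
      D (algebraMap M F τ) = algebraMap M F τ * (∑ i, a i * ((∑ c, D (algebraMap M F (l i c)) * y c) / Λ i) +
        θ a fun c => D (y c)) := by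
    intro a τ h D
    rw [← h, log_der Finset.univ D Λ hΛ0 a, ← Finset.sum_add_distrib]
    congr 1
    refine Finset.sum_congr rfl fun i _ => ?_
    rw [hΛd]
    ring
  have hA' : ∏ i, (Λ i) ^ a i = algebraMap M F τ := by
    rw [hΛ]
    exact hA
  have hB' : ∏ i, (Λ i) ^ b i = algebraMap M F σ := by
    rw [hΛ]
    exact hB
  have hτ0 : algebraMap M F τ ≠ 0 := by
    rw [← hA']
    exact Finset.prod_ne_zero_iff.2 fun i _ => zpow_ne_zero _ (hΛ0 i)
  have hσ0 : algebraMap M F σ ≠ 0 := by
    rw [← hB']
    exact Finset.prod_ne_zero_iff.2 fun i _ => zpow_ne_zero _ (hΛ0 i)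
  have hη' : ∀ (a : Fin q → ℤ) (τ : M), algebraMap M F τ ≠ 0 → ∏ i, (Λ i) ^ a i = algebraMap M F τ →
      θ a (fun c => η (y c)) = 0 := by
    intro a τ hτ h
    have h1 := hrel a τ h (η.restrictScalars k₀)
    have h2 : ∀ m : M, (η.restrictScalars k₀) (algebraMap M F m) = 0 := fun m => η.map_algebraMap m
    simp only [h2, zero_mul, Finset.sum_const_zero, zero_div, mul_zero, zero_add] at h1
    exact (mul_eq_zero.1 h1.symm).resolve_left hτ
  -- the derivations
  choose D₀ hD₀ using hl
  choose D hD using fun p => hext (D₀ p)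
  have hθ : ∀ (a : Fin q → ℤ) (τ : M), algebraMap M F τ ≠ 0 → ∏ i, (Λ i) ^ a i = algebraMap M F τ → ∀ p : Fin q × Fin (N + 1),
      θ a (fun c => D p (y c)) = algebraMap M F (D₀ p τ / τ) - a p.1 * (y p.2 / Λ p.1) := by
    intro a τ hτ h p
    have h1 := hrel a τ h (D p)
    have h2 : ∑ i, (a i : F) * ((∑ c, D p (algebraMap M F (l i c)) * y c) / Λ i) = a p.1 * (y p.2 / Λ p.1) := by
      rw [Finset.sum_eq_single p.1]
      · congr 2
        rw [Finset.sum_eq_single p.2]
        · rw [hD, hD₀ p (p.1, p.2), if_pos rfl, map_one, one_mul]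
        · intro c _ hc
          rw [hD, hD₀ p (p.1, c), if_neg (fun h => hc (congrArg Prod.snd h)), map_zero, zero_mul]
        · intro h
          exact absurd (Finset.mem_univ _) h
      · intro i _ hi
        have : ∑ c, D p (algebraMap M F (l i c)) * y c = 0 := by
          refine Finset.sum_eq_zero fun c _ => ?_
          rw [hD, hD₀ p (i, c), if_neg (fun h => hi (congrArg Prod.fst h)), map_zero, zero_mul]
        rw [this, zero_div, mul_zero]
      · intro h
        exact absurd (Finset.mem_univ _) h
    rw [h2, hD] at h1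
    rw [map_div₀, h1]
    field_simp
    ring
  have hθlin : ∀ (a : Fin q → ℤ) (u : Fin 3 → F) (v : Fin 3 → Fin (N + 1) → F), (∀ c, ∑ j, u j * v j c = 0) →
      ∑ j, u j * θ a (v j) = 0 := by
    intro a u v h
    have h1 : ∑ j, u j * θ a (v j) = ∑ i, (a i : F) * ((∑ c, algebraMap M F (l i c) * (∑ j, u j * v j c)) / Λ i) := by
      simp only [θ, Finset.mul_sum, Finset.sum_div]
      rw [Finset.sum_comm]
      refine Finset.sum_congr rfl fun i _ => ?_
      rw [Finset.sum_comm]
      refine Finset.sum_congr rfl fun c _ => ?_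
      refine Finset.sum_congr rfl fun j _ => ?_
      ring
    rw [h1]
    refine Finset.sum_eq_zero fun i _ => ?_
    simp only [h, mul_zero, Finset.sum_const_zero, zero_div]
  -- the determinant
  have hdet : ∀ p p' : Fin q × Fin (N + 1), θ a (fun c => D p (y c)) * θ b (fun c => D p' (y c)) =
      θ a (fun c => D p' (y c)) * θ b (fun c => D p (y c)) := by
    intro p p'
    obtain ⟨u, hu0, hu⟩ := three_der y htr ![D p, D p', η.restrictScalars k₀]
    have h1 := hθlin a u (fun j c => (![D p, D p', η.restrictScalars k₀] : Fin 3 → Derivation k₀ F F) j (y c)) hu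
    have h2 := hθlin b u (fun j c => (![D p, D p', η.restrictScalars k₀] : Fin 3 → Derivation k₀ F F) j (y c)) hu
    rw [Fin.sum_univ_three] at h1 h2
    have h3 : θ a (fun c => (η.restrictScalars k₀ : Derivation k₀ F F) (y c)) = 0 := hη' a τ hτ0 hA'
    have h4 : θ b (fun c => (η.restrictScalars k₀ : Derivation k₀ F F) (y c)) = 0 := hη' b σ hσ0 hB'
    have h1' : u 0 * θ a (fun c => D p (y c)) + u 1 * θ a (fun c => D p' (y c)) = 0 := by
      have : u 0 * θ a (fun c => D p (y c)) + u 1 * θ a (fun c => D p' (y c)) +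
        u 2 * θ a (fun c => (η.restrictScalars k₀ : Derivation k₀ F F) (y c)) = 0 := h1
      rw [h3, mul_zero, add_zero] at this
      exact this
    have h2' : u 0 * θ b (fun c => D p (y c)) + u 1 * θ b (fun c => D p' (y c)) = 0 := by
      have : u 0 * θ b (fun c => D p (y c)) + u 1 * θ b (fun c => D p' (y c)) +
        u 2 * θ b (fun c => (η.restrictScalars k₀ : Derivation k₀ F F) (y c)) = 0 := h2
      rw [h4, mul_zero, add_zero] at this
      exact this
    by_cases hu0' : u 0 = 0
    · by_cases hu1 : u 1 = 0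
      · exfalso
        obtain ⟨c, hc⟩ := hη
        have h5 := hu c
        rw [Fin.sum_univ_three, hu0', hu1, zero_mul, zero_mul, zero_add, zero_add] at h5
        have h6 : u 2 = 0 := (mul_eq_zero.1 h5).resolve_right hc
        apply hu0
        funext j
        fin_cases j
        · exact hu0'
        · exact hu1
        · exact h6
      · rw [hu0', zero_mul, zero_add] at h1' h2'
        rw [(mul_eq_zero.1 h1').resolve_left hu1, (mul_eq_zero.1 h2').resolve_left hu1, mul_zero, zero_mul]
    · have h5 : u 0 * (θ a (fun c => D p (y c)) * θ b (fun c => D p' (y c)) -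
          θ a (fun c => D p' (y c)) * θ b (fun c => D p (y c))) = 0 := by
        linear_combination θ b (fun c => D p' (y c)) * h1' - θ a (fun c => D p' (y c)) * h2'
      exact sub_eq_zero.1 ((mul_eq_zero.1 h5).resolve_left hu0')
  -- the classes in `M`
  obtain ⟨A, hAdef⟩ : ∃ A : Fin q × Fin (N + 1) → M, A = fun p => D₀ p τ / τ := ⟨_, rfl⟩
  obtain ⟨B, hBdef⟩ : ∃ B : Fin q × Fin (N + 1) → M, B = fun p => D₀ p σ / σ := ⟨_, rfl⟩
  have hdet' : ∀ p p' : Fin q × Fin (N + 1), (algebraMap M F (A p) - a p.1 * (y p.2 / Λ p.1)) *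
      (algebraMap M F (B p') - b p'.1 * (y p'.2 / Λ p'.1)) = (algebraMap M F (A p') - a p'.1 * (y p'.2 / Λ p'.1)) *
      (algebraMap M F (B p) - b p.1 * (y p.2 / Λ p.1)) := by
    intro p p'
    rw [hAdef, hBdef, ← hθ a τ hτ0 hA' p, ← hθ a τ hτ0 hA' p', ← hθ b σ hσ0 hB' p, ← hθ b σ hσ0 hB' p']
    exact hdet p p'
  -- nonconstant
  have hnc : ∀ i (T : Fin (N + 1) → M), ∃ c, y c / Λ i ≠ algebraMap M F (T c) := by
    intro i T
    by_contra hcon
    push Not at hcon
    obtain ⟨c, hc⟩ := hη
    apply hc
    have h1 := hcon 0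
    rw [h0] at h1
    have h2 : Λ i = algebraMap M F (T 0)⁻¹ := by
      rw [map_inv₀, ← h1, one_div, inv_inv]
    have h3 : y c = algebraMap M F (T c * (T 0)⁻¹) := by
      rw [map_mul, ← h2, ← hcon c]
      exact (div_mul_cancel₀ _ (hΛ0 i)).symm
    rw [h3]
    exact η.map_algebraMap _
  by_cases hcase : ∃ (i : Fin q) (c' : Fin (N + 1)), (a i : M) * B (i, c') - b i * A (i, c') ≠ 0
  · -- the curve is a line
    obtain ⟨i, c', hs⟩ := hcase
    obtain ⟨s, hsdef⟩ : ∃ s : Fin (N + 1) → M, s = fun c => (a i : M) * B (i, c) - b i * A (i, c) := ⟨_, rfl⟩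
    have hs' : s c' ≠ 0 := by
      rw [hsdef]
      exact hs
    have hy : ∀ c, y c = algebraMap M F ((A (i, c) * B (i, c') - A (i, c') * B (i, c)) / s c') * Λ i +
        algebraMap M F (s c / s c') * y c' := by
      intro c
      have h1 := hdet' (i, c) (i, c')
      have h2 : algebraMap M F (s c') ≠ 0 := by
        rw [Ne, map_eq_zero]
        exact hs'
      have h3 : algebraMap M F (s c') = a i * algebraMap M F (B (i, c')) - b i * algebraMap M F (A (i, c')) := by
        rw [hsdef]
        simp only [map_sub, map_mul, map_intCast]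
      have h4 : algebraMap M F (s c) = a i * algebraMap M F (B (i, c)) - b i * algebraMap M F (A (i, c)) := by
        rw [hsdef]
        simp only [map_sub, map_mul, map_intCast]
      have h5 : algebraMap M F (s c') * y c = (algebraMap M F (A (i, c)) * algebraMap M F (B (i, c')) -
          algebraMap M F (A (i, c')) * algebraMap M F (B (i, c))) * Λ i + algebraMap M F (s c) * y c' := by
        rw [h3, h4]
        have h6 := hΛ0 i
        simp only at h1
        field_simp at h1
        apply mul_left_cancel₀ h6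
        linear_combination -h1
      rw [map_div₀, map_div₀, map_sub, map_mul, map_mul]
      field_simp
      linear_combination h5
    have hle : Submodule.span M (Set.range y) ≤ Submodule.span M {Λ i, y c'} := by
      rw [Submodule.span_le]
      rintro _ ⟨c, rfl⟩
      rw [SetLike.mem_coe, Submodule.mem_span_pair]
      refine ⟨(A (i, c) * B (i, c') - A (i, c') * B (i, c)) / s c', s c / s c', ?_⟩
      rw [Algebra.smul_def, Algebra.smul_def]
      exact (hy c).symm
    have hfin : FiniteDimensional M (Submodule.span M {Λ i, y c'}) := FiniteDimensional.span_of_finite M (Set.toFinite _)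
    refine (Submodule.finrank_mono hle).trans ?_
    have := finrank_span_le_card (R := M) ({Λ i, y c'} : Set F)
    refine this.trans ?_
    rw [Set.toFinset_card]
    exact (Fintype.card_le_of_injective _ (Function.injective_id)).trans (by
      have h7 : (({Λ i, y c'} : Finset F)).card ≤ 2 := Finset.card_le_two
      simpa using h7)
  · exfalso
    push Not at hcase
    obtain ⟨i, j, hij⟩ := indep_pair hab
    have hT : ∀ i, (a i ≠ 0 ∨ b i ≠ 0) → ∃ T : Fin (N + 1) → M, ∀ c, A (i, c) = a i * T c ∧ B (i, c) = b i * T c := by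
      intro i hi
      have : CharZero M := charZero_of_injective_algebraMap (algebraMap k₀ M).injective
      by_cases hai : a i = 0
      · have hbi : (b i : M) ≠ 0 := by
          have := hi.resolve_left (not_not.2 hai)
          exact_mod_cast this
        refine ⟨fun c => B (i, c) / b i, fun c => ⟨?_, (mul_div_cancel₀ _ hbi).symm⟩⟩
        have h1 := hcase i c
        rw [hai, Int.cast_zero, zero_mul, zero_sub, neg_eq_zero] at h1
        rw [hai, Int.cast_zero, zero_mul]
        exact (mul_eq_zero.1 h1).resolve_left hbi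
      · have hai' : (a i : M) ≠ 0 := by exact_mod_cast hai
        refine ⟨fun c => A (i, c) / a i, fun c => ⟨(mul_div_cancel₀ _ hai').symm, ?_⟩⟩
        have h1 := hcase i c
        rw [sub_eq_zero] at h1
        rw [mul_div_assoc', eq_div_iff hai']
        linear_combination h1
    have hi0 : a i ≠ 0 ∨ b i ≠ 0 := by
      by_contra hcon
      push Not at hcon
      apply hij
      rw [hcon.1, hcon.2, zero_mul, mul_zero]
    have hj0 : a j ≠ 0 ∨ b j ≠ 0 := by
      by_contra hcon
      push Not at hcon
      apply hij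
      rw [hcon.1, hcon.2, zero_mul, mul_zero]
    obtain ⟨T, hT1⟩ := hT i hi0
    obtain ⟨T', hT2⟩ := hT j hj0
    obtain ⟨c, hc⟩ := hnc i T
    obtain ⟨c', hc'⟩ := hnc j T'
    have h1 := hdet' (i, c) (j, c')
    simp only at h1
    rw [(hT1 c).1, (hT1 c).2, (hT2 c').1, (hT2 c').2] at h1
    simp only [map_mul, map_intCast] at h1
    have h2 : ((a i : F) * b j - a j * b i) * ((algebraMap M F (T c) - y c / Λ i) * (algebraMap M F (T' c') - y c' / Λ j)) = 0 := by
      linear_combination h1
    have : CharZero F := charZero_of_injective_algebraMap (algebraMap k₀ F).injective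
    have h3 : (a i : F) * b j - a j * b i ≠ 0 := by
      rw [sub_ne_zero]
      exact_mod_cast hij
    rcases mul_eq_zero.1 ((mul_eq_zero.1 h2).resolve_left h3) with h4 | h4
    · exact hc (sub_eq_zero.1 h4).symm
    · exact hc' (sub_eq_zero.1 h4).symm

end

end Pool.Agent.Helper21.TS
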