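import Pool.Agent.Helper20.DER.Ext
import Pool.Agent.Helper21.TS.Line

/-!
# Two multiplicative relations between generic linear forms on a curve: the final form
-/

set_option autoImplicit false

namespace Pool.Agent.Helper21.TS

open Module Pool.Agent.Helper20.DER

/-- `y`: generic point of a curve on a surface over `k₀` in affine coordinates, `l i`: generic linear forms with coefficients in
the field of constants `M`. Two independent multiplicative relations between the `l i` on the curve: the curve is a line. -/
theorem line_of_relations {k₀ M F : Type*} [Field k₀] [CharZero k₀] [Field M] [Algebra k₀ M] [Field F] [Algebra k₀ F]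
    [Algebra M F] [IsScalarTower k₀ M F] {N q : ℕ} (l : Fin q → Fin (N + 1) → M)
    (hl : AlgebraicIndependent k₀ fun p : Fin q × Fin (N + 1) => l p.1 p.2) (y : Fin (N + 1) → F) (h0 : y 0 = 1)
    (htr : Algebra.trdeg k₀ (IntermediateField.adjoin k₀ (Set.range y)) ≤ 2) (hnc : ∃ c, Transcendental M (y c))
    (hly : ∀ i, ∑ c, algebraMap M F (l i c) * y c ≠ 0) (a b : Fin q → ℤ) (hab : LinearIndependent ℤ ![a, b]) (τ σ : M)
    (hA : ∏ i, (∑ c, algebraMap M F (l i c) * y c) ^ a i = algebraMap M F τ)
    (hB : ∏ i, (∑ c, algebraMap M F (l i c) * y c) ^ b i = algebraMap M F σ) :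
    finrank M (Submodule.span M (Set.range y)) ≤ 2 := by
  classical
  have hM : CharZero M := charZero_of_injective_algebraMap (algebraMap k₀ M).injective
  obtain ⟨c, hc⟩ := hnc
  obtain ⟨η, hη⟩ := exists_derivation (k := M) (K := F) (t := fun _ : Unit => y c)
    ((algebraicIndependent_unique_type_iff (R := M)).2 hc) fun _ => 1
  refine line_core (fun D₀ => extend_derivation D₀) l (fun p => ?_) y h0 htr η ⟨c, by rw [hη ()]; exact one_ne_zero⟩ hly a b hab
    τ σ hA hB
  obtain ⟨D, hD⟩ := exists_derivation (k := k₀) (K := M) hl fun p' => if p' = p then 1 else 0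
  exact ⟨D, fun p' => hD p'⟩

end Pool.Agent.Helper21.TS
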