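import Pool.Agent.Helper20.DER.Ext
import Pool.Agent.Helper21.TS.Line

/-!
# Two relations between logarithmic derivatives of generic linear forms on a surface

`y` is the generic point of a surface over `k₀`, in affine coordinates, `l i` are generic linear forms with coefficients
in `M`, and the surface is still two-dimensional over `M`. Then two relations `∑ α i dlog l i = 0`, `∑ β i dlog l i = 0`
along an `M`-derivation `η`, with constant coefficients which are not proportional, are possible only for `η = 0`.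
-/

set_option autoImplicit false

namespace Pool.Agent.Helper21.TS

open Module Pool.Agent.Helper20.DER

/-- a specialization of algebraically independent elements, as a valuation ring -/
theorem exists_val1 {k₀ M ι : Type*} [Field k₀] [Field M] [Algebra k₀ M] (l : ι → M) (hl : AlgebraicIndependent k₀ l)
    (l₀ : ι → k₀) : ∃ O : ValuationSubring M, (∀ x : k₀, algebraMap k₀ M x ∈ O) ∧
      ∀ i, l i - algebraMap k₀ M (l₀ i) ∈ O.nonunits := by
  classical
  let e := hl.aevalEquiv
  let φ : Algebra.adjoin k₀ (Set.range l) →ₐ[k₀] k₀ := (MvPolynomial.aeval l₀).comp e.symm.toAlgHom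
  obtain ⟨O, hO1, hO2⟩ := Ideal.image_subset_nonunits_valuationSubring
    (A := (Algebra.adjoin k₀ (Set.range l)).toSubring) (RingHom.ker (φ : Algebra.adjoin k₀ (Set.range l) →+* k₀))
    (RingHom.ker_ne_top _)
  refine ⟨O, fun x => hO1 ((Algebra.adjoin k₀ (Set.range l)).algebraMap_mem x), fun i => hO2 ?_⟩
  have hmem : l i ∈ Algebra.adjoin k₀ (Set.range l) := Algebra.subset_adjoin (Set.mem_range_self i)
  have h1 : e (MvPolynomial.X i) = ⟨l i, hmem⟩ := by
    apply Subtype.ext
    simp [e]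
  let x : Algebra.adjoin k₀ (Set.range l) := ⟨l i, hmem⟩ - algebraMap k₀ _ (l₀ i)
  refine ⟨x, ?_, rfl⟩
  rw [SetLike.mem_coe, RingHom.mem_ker]
  change φ (⟨l i, hmem⟩ - algebraMap k₀ _ (l₀ i)) = 0
  rw [map_sub, AlgHom.commutes, ← h1]
  simp [φ]

/-- the Gauss extension of a valuation ring -/
theorem exists_val2 {M E ι : Type*} [Field M] [Field E] [Algebra M E] (O : ValuationSubring M) (t : ι → E)
    (ht : AlgebraicIndependent M t) : ∃ A : ValuationSubring E, ∀ P : MvPolynomial ι O,
      (MvPolynomial.map (IsLocalRing.residue O) P = 0 →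
        MvPolynomial.eval₂ ((algebraMap M E).comp O.subtype) t P ∈ A.nonunits) ∧
      (MvPolynomial.map (IsLocalRing.residue O) P ≠ 0 →
        MvPolynomial.eval₂ ((algebraMap M E).comp O.subtype) t P ∈ A ∧
        MvPolynomial.eval₂ ((algebraMap M E).comp O.subtype) t P ∉ A.nonunits) := by
  classical
  let f : MvPolynomial ι O →+* E := MvPolynomial.eval₂Hom ((algebraMap M E).comp O.subtype) t
  let g : MvPolynomial ι O →+* MvPolynomial ι (IsLocalRing.ResidueField O) := MvPolynomial.map (IsLocalRing.residue O)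
  have hf : Function.Injective f := by
    have h1 : ∀ P, f P = MvPolynomial.aeval t (MvPolynomial.map O.subtype P) := by
      intro P
      rw [MvPolynomial.aeval_def, MvPolynomial.eval₂_map]
      rfl
    intro P Q hPQ
    rw [h1, h1] at hPQ
    exact MvPolynomial.map_injective _ Subtype.val_injective (ht hPQ)
  let I : Ideal (MvPolynomial ι O) := RingHom.ker g
  have hI : I.IsPrime := RingHom.ker_isPrime g
  have hunit : ∀ x : I.primeCompl, IsUnit (f x) := by
    intro x
    rw [isUnit_iff_ne_zero]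
    intro h
    have h2 : (x : MvPolynomial ι O) = 0 := hf (by rw [h, map_zero])
    exact x.2 (by rw [h2]; exact I.zero_mem)
  let F : Localization.AtPrime I →+* E := IsLocalization.lift (M := I.primeCompl) (g := f) hunit
  have hF : ∀ P, F (algebraMap _ _ P) = f P := fun P => IsLocalization.lift_eq _ _
  obtain ⟨A, hA, hloc⟩ := IsLocalRing.exists_factor_valuationRing (R := Localization.AtPrime I) F
  have hmem : ∀ P, f P ∈ A := by
    intro P
    rw [← hF]
    exact hA _
  refine ⟨A, fun P => ⟨fun hP => ?_, fun hP => ⟨hmem P, fun hcon => ?_⟩⟩⟩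
  · change f P ∈ A.nonunits
    rw [ValuationSubring.mem_nonunits_iff_exists_mem_maximalIdeal]
    refine ⟨hmem P, ?_⟩
    rw [IsLocalRing.mem_maximalIdeal, mem_nonunits_iff]
    intro hu
    have h2 : IsUnit (F.codRestrict A.toSubring hA (algebraMap _ _ P)) := by
      have h3 : F.codRestrict A.toSubring hA (algebraMap _ _ P) = ⟨f P, hmem P⟩ := Subtype.ext (hF P)
      rw [h3]
      exact hu
    have h4 := isUnit_of_map_unit _ _ h2
    rw [IsLocalization.AtPrime.isUnit_to_map_iff _ I] at h4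
    exact h4 hP
  · change f P ∈ A.nonunits at hcon
    rw [ValuationSubring.mem_nonunits_iff_exists_mem_maximalIdeal] at hcon
    obtain ⟨h1, h2⟩ := hcon
    rw [IsLocalRing.mem_maximalIdeal, mem_nonunits_iff] at h2
    apply h2
    have h3 : F.codRestrict A.toSubring hA (algebraMap _ _ P) = ⟨f P, hmem P⟩ := Subtype.ext (hF P)
    have h5 : IsUnit (algebraMap (MvPolynomial ι O) (Localization.AtPrime I) P) := by
      rw [IsLocalization.AtPrime.isUnit_to_map_iff _ I]
      exact hP
    have h4 := h5.map (F.codRestrict A.toSubring hA)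
    rw [h3] at h4
    exact h4

/-- the coefficients of the special lines -/
def sl (R : Type*) [CommRing R] {N q : ℕ} (c : Fin 2 → Fin (N + 1)) (p : Fin q × Fin (N + 1)) : R :=
  (if p.2 = 0 then ((p.1 : ℕ) : R) ^ 2 else 0) + (if p.2 = c 0 then ((p.1 : ℕ) : R) else 0) + if p.2 = c 1 then 1 else 0

theorem sum_sl {R : Type*} [CommRing R] {N q : ℕ} (c : Fin 2 → Fin (N + 1)) (i : Fin q) (g : Fin (N + 1) → R) :
    ∑ b, sl R c (i, b) * g b = ((i : ℕ) : R) ^ 2 * g 0 + ((i : ℕ) : R) * g (c 0) + g (c 1) := by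
  classical
  simp only [sl, add_mul, Finset.sum_add_distrib, ite_mul, zero_mul, one_mul, Finset.sum_ite_eq', Finset.mem_univ, if_true]

theorem map_sl {R S : Type*} [CommRing R] [CommRing S] (f : R →+* S) {N q : ℕ} (c : Fin 2 → Fin (N + 1))
    (p : Fin q × Fin (N + 1)) : f (sl R c p) = sl S c p := by
  simp only [sl, map_add, apply_ite f, map_pow, map_natCast, map_zero, map_one]

/-- evaluation at the node of two special lines -/
theorem node_eval {R : Type*} [CommRing R] [IsDomain R] [CharZero R] {q : ℕ} (P : Fin q → Fin q → R)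
    (hanti : ∀ i j, P j i = -P i j) (i₁ j₁ : Fin q) (hne : i₁ ≠ j₁)
    (h : ∑ x : Fin q × Fin q, P x.1 x.2 * ((x.1 : ℕ) : R) * ∏ k ∈ (Finset.univ.erase x.1).erase x.2,
      (((k : ℕ) : R) ^ 2 + ((k : ℕ) : R) * (-(((i₁ : ℕ) : R) + ((j₁ : ℕ) : R))) + ((i₁ : ℕ) : R) * ((j₁ : ℕ) : R)) = 0) :
    P i₁ j₁ = 0 := by
  classical
  have hcast : ∀ i j : Fin q, i ≠ j → ((i : ℕ) : R) - ((j : ℕ) : R) ≠ 0 := by
    intro i j hij
    rw [sub_ne_zero]
    intro h
    exact hij (Fin.ext (by exact_mod_cast h))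
  have hfac : ∀ k : Fin q, ((k : ℕ) : R) ^ 2 + ((k : ℕ) : R) * (-(((i₁ : ℕ) : R) + ((j₁ : ℕ) : R))) +
      ((i₁ : ℕ) : R) * ((j₁ : ℕ) : R) = (((k : ℕ) : R) - ((i₁ : ℕ) : R)) * (((k : ℕ) : R) - ((j₁ : ℕ) : R)) := by
    intro k
    ring
  simp only [hfac] at h
  have hdiag : ∀ i, P i i = 0 := by
    intro i
    have h1 := hanti i i
    have h2 : (2 : R) * P i i = 0 := by linear_combination h1
    exact (mul_eq_zero.1 h2).resolve_left two_ne_zero
  rw [Finset.sum_eq_add (i₁, j₁) (j₁, i₁) (fun h => hne (congrArg Prod.fst h))] at h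
  · simp only at h
    have h2 : (Finset.univ.erase j₁).erase i₁ = (Finset.univ.erase i₁).erase j₁ := Finset.erase_right_comm
    rw [h2, hanti i₁ j₁] at h
    have h3 : (P i₁ j₁ * (((i₁ : ℕ) : R) - ((j₁ : ℕ) : R))) * ∏ k ∈ (Finset.univ.erase i₁).erase j₁,
      (((k : ℕ) : R) - ((i₁ : ℕ) : R)) * (((k : ℕ) : R) - ((j₁ : ℕ) : R)) = 0 := by
      linear_combination h
    have h4 : ∏ k ∈ (Finset.univ.erase i₁).erase j₁,
      (((k : ℕ) : R) - ((i₁ : ℕ) : R)) * (((k : ℕ) : R) - ((j₁ : ℕ) : R)) ≠ 0 := by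
      rw [Finset.prod_ne_zero_iff]
      intro k hk
      have h5 := Finset.ne_of_mem_erase hk
      have h6 := Finset.ne_of_mem_erase (Finset.mem_of_mem_erase hk)
      exact mul_ne_zero (hcast _ _ h6) (hcast _ _ h5)
    exact (mul_eq_zero.1 ((mul_eq_zero.1 h3).resolve_right h4)).resolve_right (hcast _ _ hne)
  · rintro ⟨i, j⟩ - ⟨h1, h2⟩
    simp only
    by_cases hij : i = j
    · rw [hij, hdiag, zero_mul, zero_mul]
    · by_cases hi : i₁ ∈ (Finset.univ.erase i).erase j
      · rw [Finset.prod_eq_zero hi (by rw [sub_self, zero_mul]), mul_zero]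
      · by_cases hj : j₁ ∈ (Finset.univ.erase i).erase j
        · rw [Finset.prod_eq_zero hj (by rw [sub_self, mul_zero]), mul_zero]
        · exfalso
          simp only [Finset.mem_erase, Finset.mem_univ, and_true, not_and, not_not] at hi hj
          by_cases h3 : i₁ = j
          · have h4 : j₁ = i := hj (fun h => hne (h3.trans h.symm))
            exact h2 (by rw [h3, h4])
          · have h4 : i₁ = i := hi h3
            by_cases h5 : j₁ = j
            · exact h1 (by rw [h4, h5])
            · exact hne (h4.trans (hj h5).symm)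
  · intro h
    exact absurd (Finset.mem_univ _) h
  · intro h
    exact absurd (Finset.mem_univ _) h

/-- a unit of a valuation ring has its inverse in the ring -/
theorem inv_mem_of {E : Type*} [Field E] (A : ValuationSubring E) {x : E} (hx : x ∈ A) (hx' : x ∉ A.nonunits) : x⁻¹ ∈ A := by
  have h1 : A.valuation x = 1 := le_antisymm ((A.valuation_le_one_iff x).2 hx) (not_lt.1 fun h => hx' (A.mem_nonunits_iff.2 h))
  rw [← A.valuation_le_one_iff, map_inv₀, h1, inv_one]

/-- the Gauss extension contains the elements which are algebraic over `k₀(t)` -/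
theorem mem_gauss {k₀ M E ι : Type*} [Field k₀] [Field M] [Algebra k₀ M] [Field E] [Algebra k₀ E] [Algebra M E]
    [IsScalarTower k₀ M E] (O : ValuationSubring M) (hO : ∀ x : k₀, algebraMap k₀ M x ∈ O) (t : ι → E)
    (A : ValuationSubring E) (hA : ∀ P : MvPolynomial ι O,
      (MvPolynomial.map (IsLocalRing.residue O) P = 0 →
        MvPolynomial.eval₂ ((algebraMap M E).comp O.subtype) t P ∈ A.nonunits) ∧
      (MvPolynomial.map (IsLocalRing.residue O) P ≠ 0 →
        MvPolynomial.eval₂ ((algebraMap M E).comp O.subtype) t P ∈ A ∧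
        MvPolynomial.eval₂ ((algebraMap M E).comp O.subtype) t P ∉ A.nonunits))
    (K : IntermediateField k₀ E) (t' : ι → K) (ht' : ∀ i, (t' i : E) = t i)
    (halg : Algebra.IsAlgebraic (IntermediateField.adjoin k₀ (Set.range t')) K) (x : K) : (x : E) ∈ A := by
  classical
  let j : k₀ →+* O := (algebraMap k₀ M).codRestrict O hO
  have h1 : ∀ s : MvPolynomial ι k₀, s ≠ 0 → ((MvPolynomial.aeval t' s : K) : E) ∈ A ∧ ((MvPolynomial.aeval t' s : K) : E) ∉ A.nonunits := by
    intro s hs
    have h2 : ((MvPolynomial.aeval t' s : K) : E) = MvPolynomial.eval₂ ((algebraMap M E).comp O.subtype) t (MvPolynomial.map j s) := by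
      rw [MvPolynomial.eval₂_map, MvPolynomial.aeval_def]
      change algebraMap K E _ = _
      rw [MvPolynomial.eval₂_comp_left (algebraMap K E)]
      congr 1
      · ext z
        exact IsScalarTower.algebraMap_apply k₀ M E z
      · funext i
        exact ht' i
    rw [h2]
    refine (hA _).2 ?_
    rw [MvPolynomial.map_map]
    intro h3
    apply hs
    have h4 : Function.Injective ((IsLocalRing.residue O).comp j) := RingHom.injective _
    exact MvPolynomial.map_injective _ h4 (by rw [h3, map_zero])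
  have h2 : ∀ s : MvPolynomial ι k₀, ((MvPolynomial.aeval t' s : K) : E) ∈ A ∧ (((MvPolynomial.aeval t' s : K) : E))⁻¹ ∈ A := by
    intro s
    by_cases hs : s = 0
    · rw [hs, map_zero]
      exact ⟨A.zero_mem, by rw [ZeroMemClass.coe_zero, inv_zero]; exact A.zero_mem⟩
    · exact ⟨(h1 s hs).1, inv_mem_of A (h1 s hs).1 (h1 s hs).2⟩
  have h3 : ∀ z : IntermediateField.adjoin k₀ (Set.range t'), ((z : K) : E) ∈ A := by
    intro z
    obtain ⟨r, s, hrs⟩ := (IntermediateField.mem_adjoin_range_iff k₀ t' (z : K)).1 z.2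
    rw [hrs, IntermediateField.coe_div, div_eq_mul_inv]
    exact A.mul_mem _ _ (h2 r).1 (h2 s).2
  have hx : IsIntegral (IntermediateField.adjoin k₀ (Set.range t')) x := (halg.isAlgebraic x).isIntegral
  let ψ : K →+* E := algebraMap K E
  let φ : IntermediateField.adjoin k₀ (Set.range t') →+* A := ((algebraMap K E).comp (algebraMap _ K)).codRestrict A h3
  have h4 := IsIntegral.map_of_comp_eq φ ψ (by ext z; rfl) hx
  obtain ⟨w, hw⟩ := IsIntegrallyClosed.algebraMap_eq_of_integral (R := A) (K := E) h4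
  have : (x : E) = w := hw.symm
  rw [this]
  exact w.2

/-- **two relations between logarithmic derivatives of generic linear forms on a surface** -/
theorem no_der {k₀ M E : Type*} [Field k₀] [CharZero k₀] [Field M] [Algebra k₀ M] [Field E] [Algebra k₀ E]
    [Algebra M E] [IsScalarTower k₀ M E] {N q : ℕ} (l : Fin q → Fin (N + 1) → M)
    (hl : AlgebraicIndependent k₀ fun p : Fin q × Fin (N + 1) => l p.1 p.2) (y : Fin (N + 1) → E) (h0 : y 0 = 1)
    (htr : Algebra.trdeg k₀ (IntermediateField.adjoin k₀ (Set.range y)) ≤ 2) (c : Fin 2 → Fin (N + 1))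
    (hc : AlgebraicIndependent M fun j => y (c j)) (hly : ∀ i, ∑ b, algebraMap M E (l i b) * y b ≠ 0) (α β : Fin q → M)
    (i₀ j₀ : Fin q) (hp : α i₀ * β j₀ ≠ α j₀ * β i₀) (η : Derivation M E E)
    (hα : ∑ i, algebraMap M E (α i) * (η (∑ b, algebraMap M E (l i b) * y b) / ∑ b, algebraMap M E (l i b) * y b) = 0)
    (hβ : ∑ i, algebraMap M E (β i) * (η (∑ b, algebraMap M E (l i b) * y b) / ∑ b, algebraMap M E (l i b) * y b) = 0) :
    ∀ b, η (y b) = 0 := by
  classical
  have hM : CharZero M := charZero_of_injective_algebraMap (algebraMap k₀ M).injective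
  have hE : CharZero E := charZero_of_injective_algebraMap (algebraMap k₀ E).injective
  obtain ⟨K, hK⟩ : ∃ K, K = IntermediateField.adjoin k₀ (Set.range y) := ⟨_, rfl⟩
  rw [← hK] at htr
  have hyK : ∀ b, y b ∈ K := by
    intro b
    rw [hK]
    exact IntermediateField.subset_adjoin _ _ (Set.mem_range_self b)
  let t : Fin 2 → K := fun j => ⟨y (c j), hyK _⟩
  have ht0 : AlgebraicIndependent k₀ fun j => y (c j) := AlgebraicIndependent.restrictScalars (algebraMap k₀ M).injective hc
  have ht : AlgebraicIndependent k₀ t := (K.val.algebraicIndependent_iff K.val.injective).1 ht0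
  have hb : IsTranscendenceBasis k₀ t := by
    refine AlgebraicIndependent.isTranscendenceBasis_of_lift_trdeg_le ht
      (lt_of_le_of_lt htr (by exact_mod_cast Cardinal.natCast_lt_aleph0 (n := 2))) ?_
    rw [Cardinal.mk_fin, Cardinal.lift_natCast]
    have h2 : (Cardinal.lift.{0} (Algebra.trdeg k₀ K)) ≤ Cardinal.lift.{0} ((2 : ℕ) : Cardinal) := Cardinal.lift_le.2 (by exact_mod_cast htr)
    rw [Cardinal.lift_natCast] at h2
    exact h2
  have halg := hb.isAlgebraic_field
  choose d hd using fun j : Fin 2 => exists_derivation (k := k₀) (K := K) ht (fun i => if i = j then 1 else 0)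
  choose D hD using fun j : Fin 2 => exists_derivation (k := M) (K := E) hc (fun i => if i = j then 1 else 0)
  have hDd : ∀ j (x : K), D j (x : E) = (d j x : E) := by
    intro j x
    let D' : Derivation k₀ K E := ((D j).restrictScalars k₀).compAlgebraMap K - (Algebra.linearMap K E).compDer (d j)
    have hD' : ∀ x : K, D' x = D j (x : E) - (d j x : E) := fun x => rfl
    have h2 := der_zero_of_algebraic D' (Set.range t) (by
      rintro _ ⟨i, rfl⟩
      rw [hD', hd, sub_eq_zero]
      change D j (y (c i)) = _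
      rw [hD]
      split_ifs
      · rfl
      · rfl) x (halg.isAlgebraic x)
    rw [hD', sub_eq_zero] at h2
    exact h2
  have hη : ∀ x : K, η (x : E) = η (y (c 0)) * D 0 (x : E) + η (y (c 1)) * D 1 (x : E) := by
    intro x
    let D' : Derivation k₀ K E := (η.restrictScalars k₀).compAlgebraMap K -
      (η (y (c 0)) • ((D 0).restrictScalars k₀).compAlgebraMap K + η (y (c 1)) • ((D 1).restrictScalars k₀).compAlgebraMap K)
    have hD' : ∀ x : K, D' x = η (x : E) - (η (y (c 0)) * D 0 (x : E) + η (y (c 1)) * D 1 (x : E)) := fun x => rfl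
    have h2 := der_zero_of_algebraic D' (Set.range t) (by
      rintro _ ⟨i, rfl⟩
      rw [hD', sub_eq_zero]
      change η (y (c i)) = η (y (c 0)) * D 0 (y (c i)) + η (y (c 1)) * D 1 (y (c i))
      rw [hD, hD]
      fin_cases i
      · simp
      · simp) x (halg.isAlgebraic x)
    rw [hD', sub_eq_zero] at h2
    exact h2
  by_contra hcon
  push Not at hcon
  obtain ⟨b₀, hb₀⟩ := hcon
  have he : η (y (c 0)) ≠ 0 ∨ η (y (c 1)) ≠ 0 := by
    by_contra h
    push Not at h
    apply hb₀
    have := hη ⟨y b₀, hyK b₀⟩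
    rw [h.1, h.2, zero_mul, zero_mul, zero_add] at this
    exact this
  obtain ⟨Λ, hΛ⟩ : ∃ Λ : Fin q → E, Λ = fun i => ∑ b, algebraMap M E (l i b) * y b := ⟨_, rfl⟩
  have hΛ0 : ∀ i, Λ i ≠ 0 := by
    intro i
    rw [hΛ]
    exact hly i
  have hDΛ : ∀ (δ : Derivation M E E) i, δ (Λ i) = ∑ b, algebraMap M E (l i b) * δ (y b) := by
    intro δ i
    rw [hΛ]
    simp only [map_sum, δ.leibniz, smul_eq_mul, δ.map_algebraMap, mul_zero, add_zero]
  have hηΛ : ∀ i, η (Λ i) = η (y (c 0)) * D 0 (Λ i) + η (y (c 1)) * D 1 (Λ i) := by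
    intro i
    rw [hDΛ, hDΛ, hDΛ, Finset.mul_sum, Finset.mul_sum, ← Finset.sum_add_distrib]
    refine Finset.sum_congr rfl fun b _ => ?_
    have := hη ⟨y b, hyK b⟩
    change η (y b) = η (y (c 0)) * D 0 (y b) + η (y (c 1)) * D 1 (y b) at this
    rw [this]
    ring
  have hα' : ∑ i, algebraMap M E (α i) * (η (Λ i) / Λ i) = 0 := by
    rw [hΛ]
    exact hα
  have hβ' : ∑ i, algebraMap M E (β i) * (η (Λ i) / Λ i) = 0 := by
    rw [hΛ]
    exact hβ
  -- the determinant
  have hsplit : ∀ γ : Fin q → M, ∑ i, algebraMap M E (γ i) * (η (Λ i) / Λ i) =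
      η (y (c 0)) * (∑ i, algebraMap M E (γ i) * (D 0 (Λ i) / Λ i)) +
      η (y (c 1)) * (∑ i, algebraMap M E (γ i) * (D 1 (Λ i) / Λ i)) := by
    intro γ
    rw [Finset.mul_sum, Finset.mul_sum, ← Finset.sum_add_distrib]
    refine Finset.sum_congr rfl fun i _ => ?_
    rw [hηΛ]
    ring
  rw [hsplit] at hα' hβ'
  obtain ⟨p, hpdef⟩ : ∃ p : Fin q → Fin q → M, p = fun i j => α i * β j - α j * β i := ⟨_, rfl⟩
  have hdet : ∑ x : Fin q × Fin q, algebraMap M E (p x.1 x.2) * (D 0 (Λ x.1) / Λ x.1) * (D 1 (Λ x.2) / Λ x.2) = 0 := by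
    have h1 : ∑ x : Fin q × Fin q, algebraMap M E (p x.1 x.2) * (D 0 (Λ x.1) / Λ x.1) * (D 1 (Λ x.2) / Λ x.2) =
        (∑ i, algebraMap M E (α i) * (D 0 (Λ i) / Λ i)) * (∑ i, algebraMap M E (β i) * (D 1 (Λ i) / Λ i)) -
        (∑ i, algebraMap M E (β i) * (D 0 (Λ i) / Λ i)) * (∑ i, algebraMap M E (α i) * (D 1 (Λ i) / Λ i)) := by
      rw [Finset.sum_mul_sum, Finset.sum_mul_sum, ← Fintype.sum_prod_type', ← Fintype.sum_prod_type', ← Finset.sum_sub_distrib]
      refine Finset.sum_congr rfl fun x _ => ?_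
      rw [hpdef]
      simp only [map_sub, map_mul]
      ring
    rw [h1]
    rcases he with he | he
    · apply mul_left_cancel₀ he
      linear_combination (∑ i, algebraMap M E (β i) * (D 1 (Λ i) / Λ i)) * hα' -
        (∑ i, algebraMap M E (α i) * (D 1 (Λ i) / Λ i)) * hβ'
    · apply mul_left_cancel₀ he
      linear_combination (∑ i, algebraMap M E (α i) * (D 0 (Λ i) / Λ i)) * hβ' -
        (∑ i, algebraMap M E (β i) * (D 0 (Λ i) / Λ i)) * hα'
  -- the specialization
  obtain ⟨O, hO1, hO2⟩ := exists_val1 _ hl (sl k₀ c)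
  obtain ⟨x₁, -, hx₁⟩ := Finset.exists_max_image (Finset.univ : Finset (Fin q × Fin q)) (fun x => O.valuation (p x.1 x.2))
    ⟨(i₀, j₀), Finset.mem_univ _⟩
  obtain ⟨i₁, j₁⟩ := x₁
  simp only at hx₁
  have hp1 : p i₁ j₁ ≠ 0 := by
    intro h
    have h1 := hx₁ (i₀, j₀) (Finset.mem_univ _)
    rw [h, map_zero] at h1
    have h2 : p i₀ j₀ = 0 := (map_eq_zero O.valuation).1 (le_zero_iff.1 h1)
    rw [hpdef] at h2
    exact hp (sub_eq_zero.1 h2)
  have hne : i₁ ≠ j₁ := by
    rintro rfl
    apply hp1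
    rw [hpdef]
    exact sub_self _
  have hPO : ∀ i j, p i j / p i₁ j₁ ∈ O := by
    intro i j
    rw [← O.valuation_le_one_iff, map_div₀]
    exact div_le_one_of_le₀ (hx₁ (i, j) (Finset.mem_univ _)) zero_le
  obtain ⟨A, hA⟩ := exists_val2 O (fun j => y (c j)) hc
  have hKA : ∀ x : K, (x : E) ∈ A := fun x => mem_gauss O hO1 (fun j => y (c j)) A hA K t (fun _ => rfl) halg x
  have hOA : ∀ m : O, algebraMap M E m ∈ A ∧ ((m : M) ∈ O.nonunits → algebraMap M E m ∈ A.nonunits) := by
    intro m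
    have h1 := hA (MvPolynomial.C m)
    rw [MvPolynomial.map_C, MvPolynomial.eval₂_C] at h1
    by_cases hm : IsLocalRing.residue O m = 0
    · have h2 := h1.1 (by rw [hm, map_zero])
      exact ⟨(A.nonunits_subset h2), fun _ => h2⟩
    · refine ⟨(h1.2 (by rwa [Ne, MvPolynomial.C_eq_zero])).1, fun h3 => absurd ?_ hm⟩
      rw [ValuationSubring.mem_nonunits_iff_exists_mem_maximalIdeal] at h3
      obtain ⟨_, h4⟩ := h3
      rw [IsLocalRing.residue_eq_zero_iff]
      exact h4
  let ι : O →+* A := ((algebraMap M E).comp O.subtype).codRestrict A fun m => (hOA m).1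
  have hι : ∀ m : O, ((ι m : A) : E) = algebraMap M E m := fun m => rfl
  let ρ : A →+* IsLocalRing.ResidueField A := IsLocalRing.residue A
  -- the data in `O` and in `A`
  have hsl : ∀ x : Fin q × Fin (N + 1), algebraMap k₀ M (sl k₀ c x) = sl M c x := fun x => map_sl (algebraMap k₀ M) c x
  have hslO : ∀ x : Fin q × Fin (N + 1), ((sl O c x : O) : M) = sl M c x := fun x => map_sl O.subtype c x
  have hlO : ∀ x : Fin q × Fin (N + 1), l x.1 x.2 ∈ O := by
    intro x
    have h1 := O.nonunits_subset (hO2 x)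
    have h2 := O.add_mem _ _ h1 (hO1 (sl k₀ c x))
    rwa [sub_add_cancel] at h2
  let lO : Fin q → Fin (N + 1) → O := fun i b => ⟨l i b, hlO (i, b)⟩
  have hlρ : ∀ i b, ρ (ι (lO i b)) = sl _ c (i, b) := by
    intro i b
    have h1 : ρ (ι (lO i b - sl O c (i, b))) = 0 := by
      have h2 : ((lO i b - sl O c (i, b) : O) : M) ∈ O.nonunits := by
        have h3 := hO2 (i, b)
        rw [hsl] at h3
        rw [AddSubgroupClass.coe_sub, hslO]
        exact h3
      have h4 := (hOA _).2 h2
      rw [ValuationSubring.mem_nonunits_iff_exists_mem_maximalIdeal] at h4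
      obtain ⟨_, h5⟩ := h4
      rw [IsLocalRing.residue_eq_zero_iff]
      exact h5
    rw [map_sub, map_sub, sub_eq_zero] at h1
    rw [h1, map_sl ι, map_sl ρ]
  let PO : Fin q → Fin q → O := fun i j => ⟨p i j / p i₁ j₁, hPO i j⟩
  let yA : Fin (N + 1) → A := fun b => ⟨y b, hKA ⟨y b, hyK b⟩⟩
  let dA : Fin 2 → Fin (N + 1) → A := fun j b => ⟨D j (y b), by
    rw [show D j (y b) = (d j ⟨y b, hyK b⟩ : E) from hDd j ⟨y b, hyK b⟩]
    exact hKA _⟩
  have hdA0 : ∀ j, dA j 0 = 0 := by
    intro j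
    apply Subtype.ext
    change D j (y 0) = 0
    rw [h0, (D j).map_one_eq_zero]
  have hdAc : ∀ j i, dA j (c i) = if i = j then 1 else 0 := by
    intro j i
    apply Subtype.ext
    change D j (y (c i)) = _
    rw [hD]
    split_ifs
    · rfl
    · rfl
  have hyA0 : yA 0 = 1 := Subtype.ext h0
  -- the identity in `A`
  have hid : ∑ x : Fin q × Fin q, ι (PO x.1 x.2) * (∑ b, ι (lO x.1 b) * dA 0 b) * (∑ b, ι (lO x.2 b) * dA 1 b) *
      ∏ k ∈ (Finset.univ.erase x.1).erase x.2, (∑ b, ι (lO k b) * yA b) = 0 := by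
    apply Subtype.ext
    have hΛA : ∀ k, ((∑ b, ι (lO k b) * yA b : A) : E) = Λ k := by
      intro k
      rw [hΛ, AddSubmonoidClass.coe_finsetSum]
      rfl
    have hdΛA : ∀ j k, ((∑ b, ι (lO k b) * dA j b : A) : E) = D j (Λ k) := by
      intro j k
      rw [hDΛ, AddSubmonoidClass.coe_finsetSum]
      rfl
    have h1 : ((∑ x : Fin q × Fin q, ι (PO x.1 x.2) * (∑ b, ι (lO x.1 b) * dA 0 b) * (∑ b, ι (lO x.2 b) * dA 1 b) *
      ∏ k ∈ (Finset.univ.erase x.1).erase x.2, (∑ b, ι (lO k b) * yA b) : A) : E) =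
      (algebraMap M E (p i₁ j₁))⁻¹ * (∏ k, Λ k) *
        ∑ x : Fin q × Fin q, algebraMap M E (p x.1 x.2) * (D 0 (Λ x.1) / Λ x.1) * (D 1 (Λ x.2) / Λ x.2) := by
      rw [AddSubmonoidClass.coe_finsetSum, Finset.mul_sum]
      refine Finset.sum_congr rfl fun x _ => ?_
      rw [MulMemClass.coe_mul, MulMemClass.coe_mul, MulMemClass.coe_mul, hdΛA, hdΛA, SubmonoidClass.coe_finsetProd]
      simp only [hΛA]
      rw [hι]
      change algebraMap M E (p x.1 x.2 / p i₁ j₁) * _ * _ * _ = _
      rw [map_div₀]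
      by_cases hx : x.1 = x.2
      · have h2 : p x.1 x.2 = 0 := by
          rw [hx, hpdef]
          exact sub_self _
        rw [h2, map_zero]
        ring
      · have h3 : ∏ k, Λ k = Λ x.1 * (Λ x.2 * ∏ k ∈ (Finset.univ.erase x.1).erase x.2, Λ k) := by
          rw [Finset.mul_prod_erase _ _ (Finset.mem_erase.2 ⟨fun h => hx h.symm, Finset.mem_univ _⟩),
            Finset.mul_prod_erase _ _ (Finset.mem_univ _)]
        rw [h3]
        have h4 := hΛ0 x.1
        have h5 := hΛ0 x.2
        field_simp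
    rw [h1, hdet, mul_zero]
    rfl
  -- the identity in the residue field
  have hid2 := congrArg ρ hid
  have hs1 : ∀ i, ρ (∑ b, ι (lO i b) * dA 0 b) = ((i : ℕ) : IsLocalRing.ResidueField A) := by
    intro i
    rw [map_sum]
    simp only [map_mul, hlρ]
    rw [sum_sl c i (fun b => ρ (dA 0 b)), hdA0, hdAc, hdAc]
    simp
  have hs2 : ∀ i, ρ (∑ b, ι (lO i b) * dA 1 b) = 1 := by
    intro i
    rw [map_sum]
    simp only [map_mul, hlρ]
    rw [sum_sl c i (fun b => ρ (dA 1 b)), hdA0, hdAc, hdAc]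
    simp
  have hs3 : ∀ i, ρ (∑ b, ι (lO i b) * yA b) = ((i : ℕ) : IsLocalRing.ResidueField A) ^ 2 +
      ((i : ℕ) : IsLocalRing.ResidueField A) * ρ (yA (c 0)) + ρ (yA (c 1)) := by
    intro i
    rw [map_sum]
    simp only [map_mul, hlρ]
    rw [sum_sl c i (fun b => ρ (yA b)), hyA0, map_one, mul_one]
  rw [map_sum, map_zero] at hid2
  simp only [map_mul ρ, map_prod ρ, hs1, hs2, hs3, mul_one] at hid2
  -- the polynomial
  let G : MvPolynomial (Fin 2) O := ∑ x : Fin q × Fin q, MvPolynomial.C (PO x.1 x.2) * ((x.1 : ℕ) : MvPolynomial (Fin 2) O) *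
    ∏ k ∈ (Finset.univ.erase x.1).erase x.2, (((k : ℕ) : MvPolynomial (Fin 2) O) ^ 2 +
      ((k : ℕ) : MvPolynomial (Fin 2) O) * MvPolynomial.X 0 + MvPolynomial.X 1)
  have hG1 : MvPolynomial.eval₂ ((algebraMap M E).comp O.subtype) (fun j => y (c j)) G ∈ A.nonunits := by
    have h1 : MvPolynomial.eval₂ ((algebraMap M E).comp O.subtype) (fun j => y (c j)) G =
        ((MvPolynomial.eval₂ ι (fun j => yA (c j)) G : A) : E) := by
      change _ = A.subtype (MvPolynomial.eval₂ ι (fun j => yA (c j)) G)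
      rw [MvPolynomial.eval₂_comp_left A.subtype]
      rfl
    rw [h1, ValuationSubring.mem_nonunits_iff_exists_mem_maximalIdeal]
    refine ⟨Subtype.coe_prop _, ?_⟩
    rw [← IsLocalRing.residue_eq_zero_iff]
    change ρ (MvPolynomial.eval₂ ι (fun j => yA (c j)) G) = 0
    rw [← hid2]
    simp only [G, MvPolynomial.eval₂_sum, MvPolynomial.eval₂_mul, MvPolynomial.eval₂_C, MvPolynomial.eval₂_prod,
      MvPolynomial.eval₂_add, MvPolynomial.eval₂_pow, MvPolynomial.eval₂_X, MvPolynomial.eval₂_natCast, map_sum ρ, map_mul ρ,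
      map_prod ρ, map_add ρ, map_pow ρ, map_natCast ρ]
  have hG2 : MvPolynomial.map (IsLocalRing.residue O) G = 0 := by
    by_contra h
    exact ((hA G).2 h).2 hG1
  have hκ : CharZero (IsLocalRing.ResidueField O) :=
    charZero_of_injective_ringHom (f := (IsLocalRing.residue O).comp ((algebraMap k₀ M).codRestrict O hO1)) (RingHom.injective _)
  have hG3 := congrArg (MvPolynomial.eval ![-(((i₁ : ℕ) : IsLocalRing.ResidueField O) + ((j₁ : ℕ) : IsLocalRing.ResidueField O)),
    ((i₁ : ℕ) : IsLocalRing.ResidueField O) * ((j₁ : ℕ) : IsLocalRing.ResidueField O)]) hG2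
  simp only [G, map_sum, map_mul, MvPolynomial.map_C, MvPolynomial.eval_C, map_prod, map_add, map_pow, map_natCast,
    MvPolynomial.map_X, MvPolynomial.eval_X, map_zero, Matrix.cons_val_zero, Matrix.cons_val_one] at hG3
  have hfin := node_eval (R := IsLocalRing.ResidueField O) (fun i j => IsLocalRing.residue O (PO i j)) (by
    intro i j
    rw [← map_neg]
    congr 1
    apply Subtype.ext
    change p j i / p i₁ j₁ = -(p i j / p i₁ j₁)
    rw [hpdef]
    ring) i₁ j₁ hne hG3
  have h1 : PO i₁ j₁ = 1 := Subtype.ext (div_self hp1)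
  rw [h1, map_one] at hfin
  exact one_ne_zero hfin

end Pool.Agent.Helper21.TS
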